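import Pool.Agent.EVF.StmtsF

set_option autoImplicit false

namespace Pool.Agent.EVF.H79

open MvPolynomial

theorem bez (h : ResStmt) : BezStmt := by
  intro k l φ χ hφ hd hnd
  have key : ∀ ψ : MvPolynomial (Fin k) ℤ, (∀ a ∈ ψ.support, a l = 0) → degreeOf l ψ = 0 := by
    intro ψ hψ
    rw [degreeOf_eq_sup]
    apply Nat.le_zero.1
    apply Finset.sup_le
    intro a ha
    exact le_of_eq (hψ a ha)
  have h1 : ∃ a ∈ φ.support, a l ≠ 0 := by
    by_contra hne
    have h2 : ∀ a ∈ φ.support, a l = 0 := by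
      intro a ha
      by_contra h3
      exact hne ⟨a, ha, h3⟩
    have h4 := key φ h2
    omega
  obtain ⟨ρ, hρ, hz, hm⟩ := h k l φ χ hφ h1 hnd
  rw [Ideal.mem_span_pair] at hm
  obtain ⟨A, B, hAB⟩ := hm
  exact ⟨A, B, ρ, hρ, key ρ hz, hAB⟩

end Pool.Agent.EVF.H79
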